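import Pool.Agent.W920.NL.LawAM2

/-!
# `coNP ⊆ AM` and prediction of the answers to parallel `NP` queries with public coins

`InNP`, `NPHard` are those of `Pool.Agent.NPC.Defs`, polynomial time is Mathlib's
`Turing.TM2ComputableInPolyTime`; `InAM`, `AMOutputs`, `AMPredictable` and `AMFullyPredictable` are
those of `Pool.Agent.W920.NL.DefsAM`, `Beats` is that of `Pool.Agent.W901.AT.DefsP`.

`InAM S`: the set `S` has two-message interactive proofs in which the message of the verifier
consists of its random bits, with perfect completeness and soundness error at most `1 / 2`. (It is
known that private coins, or a constant number of messages, do not give more.)

A set `A` is `(δ, ε)`-predictable with public coins if a polynomial-time algorithm which sends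
random bits to a prover and computes its output from the reply (or rejects the reply) has the
following properties. For every input and all random bits there is a reply which is not rejected.
Given a nonempty list of `m` questions of length at most `m ^ ε` about membership in `A` and
`O(log n)` bits of information about this list from an arbitrary source, for at least half of the
random bits all outputs (for all replies) are predictions for some `s > 0` of the questions such that
the numbers of right and of wrong predictions differ by at least `m ^ δ * √ s`.  It is fully
`δ`-predictable with public coins if this holds for all lists of questions, of any length, with
predictions for all questions.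

The theorem: for all `ε > 0` and `0 < δ ≤ 1 / 2`,

`coNP ⊆ AM` iff some `NP`-hard set is `(δ, ε)`-predictable with public coins iff every set in `NP`
is fully `δ`-predictable with public coins.

(For `δ ≤ 0` every set is fully `δ`-predictable, even deterministically, so the threshold is sharp.)

Proof.  Let some `NP`-hard set be predictable with public coins, and let `L` be in `NP`.

1. Amplification: `2 l + 2` independent runs on each input of length `l` give a list of `2 l + 2`
   outputs one of which is good, with an error probability of at most `4 ^ - (l + 1)`. So random bits
   of polynomial length are good for all inputs of length at most `N` simultaneously with
   probability at least `1 / 2`.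
2. The verifier sends such random bits. The prover replies with tables of replies for all inputs
   that occur in the certificate for `x ∉ L` described in `MP_9cec2c_lc/NondeterministicLaw`: the
   guessed run, level by level, of the algorithm of `Pool.Agent.H251R5.PQ` for the search of a
   witness of `x ∈ L`, in which the candidates for the vectors of answers to parallel `NP` queries
   are found from predictions. If the random bits are good then no prover can convince the verifier
   of `x ∉ L` wrongly. If `x ∉ L` then a correct run exists for all random bits.
-/

set_option autoImplicit false

namespace Pool.Agent.Results.MP_d404e6_lc.PublicCoinPrediction

open Pool.Agent.NPC Pool.Agent.W920.NL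

/-- **The law of prediction with public coins for `NP`.** -/
theorem result (δ ε : ℝ) (h1 : 0 < δ) (h2 : δ ≤ 1 / 2) (h3 : 0 < ε) : List.TFAE
    [∀ L : Set (List Bool), InNP L → InAM Lᶜ,
      ∃ A : Set (List Bool), NPHard A ∧ AMPredictable δ ε A,
      ∀ A : Set (List Bool), InNP A → AMFullyPredictable δ A] :=
  am_law h1 h2 h3

end Pool.Agent.Results.MP_d404e6_lc.PublicCoinPrediction
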