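import Mathlib
import Pool.Agent.H592R3.Defs
import Pool.Agent.W964.Pram.Machine
import Pool.Agent.W964.Pram.RandMachine
import Pool.Agent.W964.Pram.Q.Quantum
import Pool.Agent.W964.Pram.Q.Refute

/-!
Quantum interactive proofs (any number of rounds, messages and entangled provers) of the
unsatisfiability of CNF formulas with `n` variables whose verifier calls, in superposition,
`2 ^ (n ^ c)` programs of ideal parallel random access machines (priority concurrent writing,
arbitrary instruction set, unbounded words and memory, `2 ^ ((1 - ε) n)` processors,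
`T = o (n / log n)` steps) at most `n ^ (c T)` times: if they are sound, they prove the
unsatisfiability of few formulas, for an explicit distribution on unsatisfiable formulas.
-/

set_option autoImplicit false

open SmallDepth Finset Filter Pool.Agent.W964.Pram

namespace Pool.Agent.Results.MP_d404e6_lc.QuantumRefutations

open Classical in
/-- 1. For `ε > 0` and `K` there is `C > 0` such that for `n ≥ 2` variables, `T ≥ 1` steps,
`C T log (n + g) ≤ w ≤ n` and `M ≥ n 2 ^ w` clauses there is a probability distribution `ν` on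
unsatisfiable formulas of width at most `w` with the following property. Let `V` be a quantum proof
system whose verifier makes `q` calls of `2 ^ g` programs of parallel machines with at most
`2 ^ ((1 - ε) n)` processors and lists of length at most `2 ^ (K n)`, which run for `T` steps. If no
strategy of the provers is accepted with probability greater than `γ` on a formula of width at most
`w` with exactly one satisfying assignment, then a strategy with acceptance probability at least
`γ + η` exists only on a set of formulas of `ν`-probability at most `q 2 ^ (-w / C) / η`.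

2. For `0 < δ < 2`, `K`, `c` and `T n = o (n / log n)` there are widths `w n = O (T n log n)` and
numbers of clauses `M n = n 2 ^ w n` such that for all large `n` there is such a distribution `ν`
for which every quantum proof system with `(2 - δ) ^ n` times a polynomial in `M n` processors, `T n`
steps, `2 ^ (n ^ c)` programs and at most `n ^ (c T n)` calls and with soundness error at most
`1 / 3` proves with probability `2 / 3` the unsatisfiability of a set of formulas of
`ν`-probability at most `1 / n ^ c` only. -/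
theorem result :
    (∀ (ε : ℝ) (K : ℕ), 0 < ε → ∃ C : ℝ, 0 < C ∧
      ∀ n T g w M : ℕ, 2 ≤ n → 1 ≤ T → C * (T * Real.log (n + g)) ≤ w → w ≤ n →
      n * 2 ^ w ≤ M →
      ∃ ν : ((Fin M × Fin n × Bool) → Bool) → ℝ,
        (∀ x, 0 ≤ ν x) ∧ ∑ x, ν x = 1 ∧ (∀ x, ν x ≠ 0 → WidthLe x w ∧ ¬ ∃ α, Models x α) ∧
        ∀ (P : ℕ) (V : QProofs (Fin M × Fin n × Bool) P), (P : ℝ) ≤ 2 ^ ((1 - ε) * n) →
          V.Lists (2 ^ (K * n)) → Nat.card V.I ≤ 2 ^ g → ∀ (q : ℕ) (γ η : ℝ),
          (∀ x, WidthLe x w → (∃! α, Models x α) → ∀ π, V.acc T q x π ≤ γ) →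
          η * (∑ x, if ∃ π, γ + η ≤ V.acc T q x π then ν x else 0) ≤
            q * 2 ^ (-((w : ℝ) / C))) ∧
    (∀ (δ : ℝ) (K c : ℕ), 0 < δ → δ < 2 → ∀ T : ℕ → ℕ, (∀ n, 1 ≤ T n) →
      (fun n : ℕ => (T n : ℝ) * Real.log n) =o[atTop] (fun n : ℕ => (n : ℝ)) →
      ∃ w : ℕ → ℕ, (∃ C : ℝ, ∀ n, 2 ≤ n → (w n : ℝ) ≤ C * (T n * Real.log n)) ∧
        ∀ e : ℕ, ∀ᶠ n : ℕ in atTop,
          ∃ ν : ((Fin (n * 2 ^ w n) × Fin n × Bool) → Bool) → ℝ,
            (∀ x, 0 ≤ ν x) ∧ ∑ x, ν x = 1 ∧
            (∀ x, ν x ≠ 0 → WidthLe x (w n) ∧ ¬ ∃ α, Models x α) ∧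
            ∀ (P : ℕ) (V : QProofs (Fin (n * 2 ^ w n) × Fin n × Bool) P) (q : ℕ),
              (P : ℝ) ≤ (2 - δ) ^ n * (e * (((n * 2 ^ w n : ℕ) : ℝ)) ^ e) →
              V.Lists (2 ^ (K * n)) → Nat.card V.I ≤ 2 ^ (n ^ c) → q ≤ n ^ (c * T n) →
              (∀ x, WidthLe x (w n) → (∃! α, Models x α) → ∀ π, V.acc (T n) q x π ≤ 1 / 3) →
              (∑ x, if ∃ π, 2 / 3 ≤ V.acc (T n) q x π then ν x else 0) ≤ 1 / (n : ℝ) ^ c) :=
  ⟨fun ε K hε => q_refute ε hε K,
    fun δ K c hδ hδ2 T hT hTo => q_refute_q1 δ hδ hδ2 K c T hT hTo⟩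

end Pool.Agent.Results.MP_d404e6_lc.QuantumRefutations
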