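import Pool.Agent.W897.MA.Main

/-!
# Two-message interactive proofs of unsatisfiability with verifiers of constant depth

We consider interactive proofs with two messages (first the verifier, then the prover) in which
the verifier sends a message `μ ω` of `c` bits, which is a function of his (public or private)
coins `ω`, the prover replies with `g` bits, and then the verifier decides by a circuit of depth
`h` with `s` gates of the kinds AND, OR and MOD-`p` (`p` prime; negations are free), which may
depend on the coins and on the reply in an arbitrary way and gets the formula as its input.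

A `k`-CNF formula with `n` variables is given by the table of its clauses, which has `(2 n) ^ k`
bits. If it is satisfiable then a single message of `n` bits, the satisfying assignment, proves it
and is checked by a single AND gate. We show that in every interactive proof of unsatisfiability
(two-sided error `1 / 3`)

`n ^ k ≤ C (2 ^ c g + 1) (log (s + n) + 1) ^ ((2 h + 2) k + 1)`.

So for circuits of size `2 ^ (n ^ o(1))`, if the verifier sends `c ≤ (k - ε) log n` bits then the
prover has to send `g ≥ n ^ (ε - o(1))` bits, and if there is no message from the verifier
(`c = 0`, a Merlin-Arthur proof) then the prover has to send `n ^ (k - o(1))` bits.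

In the second part soundness is perfect and proofs are accepted with probability `2 ^ (-e)` only,
but the circuits may also consult, `m` times, an adviser with unbounded computational power who
does not know the formula; each time they send the adviser one bit and then get back a message
of any length, which depends in an arbitrary way on the bits the adviser has received so far (and
on the reply of the prover and the coins). In this case `g` is to be replaced by
`g + m + e` in the sense given below.

Proof. Let `q ∈ {2, 3}` be different from `p`. Choose `N` polynomial in `log s`. A table `y` with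
`μ ^ k` rows, `μ ≈ n / (2 q N)`, and `N` columns is coded by a `k`-CNF with `n` variables which is
satisfiable if and only if the number of ones in some row is not divisible by `q`. Some strategy
of the prover (a table with `2 ^ c g` bits) is accepted for a fraction
`2 ^ (- 2 ^ c g - 2 μ ^ k)` of the tables `y`, and (nearly) only if all the row sums are divisible
by `q`. As a majority of many probabilistic polynomials, the event that it is accepted nearly
agrees with a function of low degree over a field of characteristic `p`; multiplied with a
function of degree a little less than half the number of the bits of `y` that vanishes on the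
exceptional set, it gives a function of degree less than half the number of bits that is nonzero
only if all the row sums are divisible by `q`, a contradiction (Razborov, Smolensky). The last
part of the proof, for one-sided error, is from the starting files `Pool/Agent/H820R3/AC` (no
OR-distillation of SAT by such circuits).
-/

set_option autoImplicit false

namespace Pool.Agent.Results.MP_d404e6_lc.ShortMessages

open H746R3.Inv Pool.Agent.H820R3.AC Pool.Agent.W897.MA

/-- Pairs of a message with `c` bits and the number of a bit of the reply, numbered. -/
noncomputable def tableEquiv (c g : ℕ) : (Fin c → Bool) × Fin g ≃ Fin (2 ^ c * g) :=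
  (Equiv.prodCongr (Fintype.equivFinOfCardEq (by simp)) (Equiv.refl _)).trans finProdFinEquiv

/-- The strategy of the prover with a given table of all his replies. -/
noncomputable def strategyOf {c g : ℕ} (z : Fin (2 ^ c * g) → Bool) :
    (Fin c → Bool) → (Fin g → Bool) :=
  fun w i => z (tableEquiv c g (w, i))

/-- The table of all the replies of a strategy. -/
noncomputable def tableOf {c g : ℕ} (σ : (Fin c → Bool) → (Fin g → Bool)) :
    Fin (2 ^ c * g) → Bool :=
  fun a => σ ((tableEquiv c g).symm a).1 ((tableEquiv c g).symm a).2

theorem strategyOf_tableOf {c g : ℕ} (σ : (Fin c → Bool) → (Fin g → Bool)) :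
    strategyOf (tableOf σ) = σ := by
  funext w i
  simp [strategyOf, tableOf]

/-- For every prime number `p`, every depth `h` and every `k ≥ 3` there is a constant `C` such that
for all `n` the following holds.

1. There are proofs with one message of `n` bits of the satisfiability of `k`-CNFs with `n`
variables, which are checked by circuits with at most one gate.
2. Two-message interactive proofs of unsatisfiability, two-sided error `1 / 3`. The verifier sends
the message `μ ω` of `c` bits, where `ω ∈ Ω` are his random coins, the prover, whose strategy is
`σ`, replies with the `g` bits `σ (μ ω)`, and the verifier decides with the circuit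
`V (σ (μ ω)) ω`, which has depth at most `h` and at most `s` gates, all of them AND, OR or MOD-`p`
gates, on the table of the formula `φ`. If for every unsatisfiable formula some strategy is accepted
with probability at least `2 / 3`, and if for every satisfiable formula all strategies are accepted
with probability at most `1 / 3`, then
`n ^ k ≤ C (2 ^ c g + 1) (log (s + n) + 1) ^ ((2 h + 2) k + 1)`.
3. Now let the circuits of `P (σ (μ ω)) ω` send `m` bits to a computationally unbounded adviser,
who does not know the formula and answers each of them by a message; the verifier accepts if the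
bits which are sent are in `A (σ (μ ω)) ω`. If for every unsatisfiable formula some strategy is
accepted with probability at least `2 ^ (-e)` and if the verifier never accepts a satisfiable
formula, then `n ^ k ≤ C (2 ^ c g + m + e + 1) (log (s + n) + 1) ^ ((2 h + 2) k + 1)`. -/
theorem result (p : ℕ) (hp : p.Prime) (h k : ℕ) (hk : 3 ≤ k) : ∃ C : ℕ, ∀ n : ℕ,
    (∃ V : (Fin n → Bool) → Circuit (Clause k n) Unit, (∀ z, SmallCircuit 1 1 (V z)) ∧
      ∀ φ : Formula k n, Satisfiable φ ↔ ∃ z, Accepts p (V z) φ) ∧
    (∀ (s c g : ℕ) (Ω : Type) [Fintype Ω] [Nonempty Ω] (μ : Ω → (Fin c → Bool))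
      (V : (Fin g → Bool) → Ω → Circuit (Clause k n) Unit),
      (∀ z ω, SmallCircuit h s (V z ω)) →
      (∀ φ : Formula k n, ¬ Satisfiable φ → ∃ σ : (Fin c → Bool) → (Fin g → Bool),
        2 * Nat.card Ω ≤ 3 * Nat.card {ω // Accepts p (V (σ (μ ω)) ω) φ}) →
      (∀ φ : Formula k n, Satisfiable φ → ∀ σ : (Fin c → Bool) → (Fin g → Bool),
        3 * Nat.card {ω // Accepts p (V (σ (μ ω)) ω) φ} ≤ Nat.card Ω) →
      n ^ k ≤ C * (2 ^ c * g + 1) * (Nat.log 2 (s + n) + 1) ^ ((2 * h + 2) * k + 1)) ∧
    (∀ (s c g m e : ℕ) (Ω : Type) [Fintype Ω] [Nonempty Ω] (μ : Ω → (Fin c → Bool))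
      (P : (Fin g → Bool) → Ω → Protocol (Clause k n) m)
      (A : (Fin g → Bool) → Ω → Set (Fin m → Bool)),
      (∀ z ω, (P z ω).Small h s) →
      (∀ φ : Formula k n, ¬ Satisfiable φ → ∃ σ : (Fin c → Bool) → (Fin g → Bool),
        Nat.card Ω ≤ 2 ^ e * Nat.card
          {ω // ∀ τ, (P (σ (μ ω)) ω).Sends p φ τ → τ ∈ A (σ (μ ω)) ω}) →
      (∀ φ : Formula k n, Satisfiable φ → ∀ z ω τ, (P z ω).Sends p φ τ → τ ∉ A z ω) →
      n ^ k ≤ C * (2 ^ c * g + m + e + 1) * (Nat.log 2 (s + n) + 1) ^ ((2 * h + 2) * k + 1)) := by
  obtain ⟨C₁, h₁⟩ := ma_bound p h k hp hk
  obtain ⟨C₂, h₂⟩ := bob_bound p h k hp hk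
  refine ⟨max C₁ C₂, fun n => ⟨sat_proofs p k n, ?_, ?_⟩⟩
  · intro s c g Ω _ _ μ V hV hcomp hsound
    refine (h₁ n s (2 ^ c * g) Ω (fun z ω => V (strategyOf z (μ ω)) ω) (fun z ω => hV _ _)
      (fun φ hφ => ?_) (fun φ hφ z => hsound φ hφ (strategyOf z))).trans ?_
    · obtain ⟨σ, hσ⟩ := hcomp φ hφ
      refine ⟨tableOf σ, ?_⟩
      rw [strategyOf_tableOf]
      exact hσ
    · gcongr
      exact le_max_left _ _
  · intro s c g m e Ω _ _ μ P A hP hcomp hsound
    refine (h₂ n s (2 ^ c * g) m e Ω (fun z ω => P (strategyOf z (μ ω)) ω)
      (fun z ω => A (strategyOf z (μ ω)) ω) (fun z ω => hP _ _)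
      (fun φ hφ => ?_) (fun φ hφ z ω τ hτ => hsound φ hφ _ ω τ hτ)).trans ?_
    · obtain ⟨σ, hσ⟩ := hcomp φ hφ
      refine ⟨tableOf σ, ?_⟩
      rw [strategyOf_tableOf]
      exact hσ
    · gcongr
      exact le_max_right _ _

end Pool.Agent.Results.MP_d404e6_lc.ShortMessages
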